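import Pool.Agent.Helper533.Deny.Final

/-! Deny's theorem for `𝒜`-superharmonic functions: every `𝒜`-polar `G_δ` set in `ℝⁿ` is the
infinity set of an `𝒜`-superharmonic function on `ℝⁿ`. All the notions in the statement are those
of the modules `Pool.Agent.Helper533.Deny.Stmt` and `Pool.Agent.Helper533.Polar.Stmt`. -/

set_option autoImplicit false

open MeasureTheory Filter Topology Set

namespace Pool.Agent.Results.MP_9b58c5_an.InfinitySets

open Pool.Agent.Helper533.Polar.Stmt (Sp IsOperator)
open Pool.Agent.Helper533.Deny (IsAdmissible IsSuperharmonic IsPolar)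

/-- **Q1, positive answer.** Let `1 < p < ∞`, let `w` be a `p`-admissible weight on `ℝⁿ`
(`n ≥ 1`), `dμ = w dx`, and let `𝒜` satisfy the structure conditions with respect to `w`. Then for
every `𝒜`-polar `G_δ` set `E ⊆ ℝⁿ` there is an `𝒜`-superharmonic function `u` in `ℝⁿ` with
`{u = ∞} = E`. Together with the (easy) converse, the infinity sets of the `𝒜`-superharmonic
functions in `ℝⁿ` are exactly the `𝒜`-polar `G_δ` sets. -/
theorem result {n : ℕ} (hn : 1 ≤ n) {p α β : ℝ} (hp : 1 < p) {w : Sp n → ℝ}
    (hw : IsAdmissible p w) {𝒜 : Sp n → Sp n → Sp n} (hA : IsOperator p α β w 𝒜)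
    (E : Set (Sp n)) :
    (IsGδ E ∧ IsPolar 𝒜 p w E) ↔
      ∃ u : Sp n → EReal, IsSuperharmonic 𝒜 p w univ u ∧ {x | u x = ⊤} = E := by
  constructor
  · rintro ⟨hE, hpol⟩
    exact Pool.Agent.Helper533.Polar.deny_theorem hn hp hw hA hE hpol
  · rintro ⟨u, hu, rfl⟩
    refine ⟨?_, univ, u, isOpen_univ, subset_univ _, hu, fun x hx => hx⟩
    have hl : LowerSemicontinuous u := lowerSemicontinuousOn_univ_iff.1 hu.lsc
    have : {x | u x = ⊤} = ⋂ k : ℕ, u ⁻¹' Ioi ((k : ℝ) : EReal) := by
      ext x
      simp only [mem_ofPred_eq, mem_iInter, mem_preimage, mem_Ioi]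
      constructor
      · intro h k
        rw [h]
        exact EReal.coe_lt_top _
      · intro h
        by_contra hne
        have hb : u x ≠ ⊥ := fun h0 => by
          have := h 0
          rw [h0] at this
          exact absurd this (not_lt.2 bot_le)
        lift u x to ℝ using ⟨hne, hb⟩ with r hr
        obtain ⟨k, hk⟩ := exists_nat_gt r
        have := h k
        rw [EReal.coe_lt_coe_iff] at this
        exact absurd this (not_lt.2 hk.le)
    rw [this]
    exact IsGδ.iInter_of_isOpen fun k => hl.isOpen_preimage _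

end Pool.Agent.Results.MP_9b58c5_an.InfinitySets
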